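import Mathlib
import Pool.Agent.H888R3.BlkB

set_option autoImplicit false

/-!
The conjectured exact formula for the clique achievement number of the `(m:b)` Maker-Breaker clique
game, `m > b`, is false: in the `(50:49)` game Maker builds cliques that are larger than the
conjectured value by a constant factor.
-/

namespace Pool.Agent.Results.MP_ba8873_co.BlockDisproof

open Finset Filter Topology

/-- The board: all edges of the complete graph on `N` vertices. -/
def board (N : ℕ) : Finset (Sym2 (Fin N)) := univ.filter (fun z => ¬ z.IsDiag)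

/-- A position: the set of edges claimed so far by Maker and the set claimed by Breaker. -/
structure Pos (N : ℕ) where
  maker : Finset (Sym2 (Fin N))
  breaker : Finset (Sym2 (Fin N))

/-- The edges that nobody has claimed yet. -/
def free {N : ℕ} (p : Pos N) : Finset (Sym2 (Fin N)) := board N \ (p.maker ∪ p.breaker)

/-- The play in which Maker follows the strategy `σ` and Breaker claims the set `R i` in his
`i`-th turn: `play σ R i` is the position after `i` rounds. In each round Maker moves first. -/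
def play {N : ℕ} (σ : Pos N → Finset (Sym2 (Fin N))) (R : ℕ → Finset (Sym2 (Fin N))) : ℕ → Pos N
  | 0 => ⟨∅, ∅⟩
  | i + 1 => ⟨(play σ R i).maker ∪ σ (play σ R i), (play σ R i).breaker ∪ R i⟩

/-- Maker's strategy is legal in the `(m:b)` game: in every position it claims exactly `m` free
edges, or all free edges if there are fewer than `m`. -/
def LegalStrategy {N : ℕ} (m : ℕ) (σ : Pos N → Finset (Sym2 (Fin N))) : Prop :=
  ∀ p, σ p ⊆ free p ∧ (σ p).card = min m (free p).card

/-- Breaker's turns are legal in the `(m:b)` game: each time he claims exactly `b` of the edges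
that are still free after Maker's move, or all of them if there are fewer than `b`. -/
def LegalReplies {N : ℕ} (b : ℕ) (σ : Pos N → Finset (Sym2 (Fin N)))
    (R : ℕ → Finset (Sym2 (Fin N))) : Prop :=
  ∀ i, R i ⊆ free (play σ R i) \ σ (play σ R i) ∧
    (R i).card = min b (free (play σ R i) \ σ (play σ R i)).card

/-- The edge set `M` contains all edges of a copy of `K_q`. -/
def ContainsClique {N : ℕ} (q : ℕ) (M : Finset (Sym2 (Fin N))) : Prop :=
  ∃ S : Finset (Fin N), S.card = q ∧ ∀ u ∈ S, ∀ v ∈ S, u ≠ v → s(u, v) ∈ M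

/-- Maker has a legal strategy in the `(m:b)` game on `K_N` that builds `K_q` against every legal
play of Breaker: when all edges are claimed, Maker's edges contain a copy of `K_q`. -/
def MakerCanBuild (m b N q : ℕ) : Prop :=
  ∃ σ : Pos N → Finset (Sym2 (Fin N)), LegalStrategy m σ ∧
    ∀ R : ℕ → Finset (Sym2 (Fin N)), LegalReplies b σ R →
      ∃ i, free (play σ R i) = ∅ ∧ ContainsClique q (play σ R i).maker

/-- `c = (m+b)/m` -/
noncomputable def c (m b : ℕ) : ℝ := ((m : ℝ) + b) / m

/-- `c₀ = m/(m-b)` -/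
noncomputable def c₀ (m b : ℕ) : ℝ := (m : ℝ) / ((m : ℝ) - b)

/-- The conjectured value
`Q(N) = 2 log_c (e N / (2 log_c N)) - 1 + 2 log c / log c₀`. -/
noncomputable def Q (m b N : ℕ) : ℝ :=
  2 * Real.logb (c m b) (Real.exp 1 * N / (2 * Real.logb (c m b) N)) - 1
    + 2 * Real.log (c m b) / Real.log (c₀ m b)

/-- The conjecture of Q1: for every pair `m > b ≥ 1` there is a sequence `ε_N → 0` such that, for
all sufficiently large `N`, the largest `q` such that Maker can build `K_q` in the `(m:b)` game on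
`K_N` is `⌊Q(N) + ε_N⌋`. -/
def Conjecture : Prop :=
  ∀ m b : ℕ, 1 ≤ b → b < m → ∃ ε : ℕ → ℝ, Tendsto ε atTop (𝓝 0) ∧
    ∀ᶠ N : ℕ in atTop, ∃ a : ℕ, IsGreatest {q | MakerCanBuild m b N q} a ∧
      (a : ℤ) = ⌊Q m b N + ε N⌋

lemma canBuild (t N : ℕ)
    (hN : 12 ^ t * (10 * (98 + (1 + 98 * t) * (108 + 10 * (1 + 98 * t)) + 1)) ≤ N) :
    MakerCanBuild 50 49 N (10 * t) := by
  have hf := Pool.Agent.H888R3.forces_clique (V := Fin N) t (by simpa using hN)
  obtain ⟨σ, hσ, hplay⟩ := Pool.Agent.H888R3.exists_strategy (by norm_num) hf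
  refine ⟨fun p => σ p.maker p.breaker, fun p => hσ p.maker p.breaker, ?_⟩
  intro R hR
  obtain ⟨i, hi, hg⟩ := hplay (fun i => (play (fun p => σ p.maker p.breaker) R i).maker)
    (fun i => (play (fun p => σ p.maker p.breaker) R i).breaker) R rfl rfl
    (fun _ => rfl) (fun _ => rfl) (fun i => hR i)
  exact ⟨i, hi, hg⟩

lemma poly_exp : ∀ᶠ t : ℕ in atTop,
    12 ^ t * (10 * (98 + (1 + 98 * t) * (108 + 10 * (1 + 98 * t)) + 1)) ≤ 13 ^ t := by
  have h : ∀ k : ℕ, Tendsto (fun n : ℕ => (n : ℝ) ^ k * (12 / 13 : ℝ) ^ n) atTop (𝓝 0) :=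
    fun k => tendsto_pow_const_mul_const_pow_of_abs_lt_one k (by
      rw [abs_of_pos] <;> norm_num)
  have h1 : Tendsto (fun n : ℕ => 960400 * ((n : ℝ) ^ 2 * (12 / 13 : ℝ) ^ n)
      + 125440 * ((n : ℝ) ^ 1 * (12 / 13 : ℝ) ^ n) + 2170 * ((n : ℝ) ^ 0 * (12 / 13 : ℝ) ^ n))
      atTop (𝓝 (960400 * 0 + 125440 * 0 + 2170 * 0)) :=
    (((h 2).const_mul _).add ((h 1).const_mul _)).add ((h 0).const_mul _)
  have h2 : (960400 * 0 + 125440 * 0 + 2170 * 0 : ℝ) < 1 := by norm_num
  filter_upwards [h1.eventually_lt_const h2] with t ht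
  have h3 : (0 : ℝ) < 13 ^ t := by positivity
  have h4 : (12 / 13 : ℝ) ^ t = 12 ^ t / 13 ^ t := div_pow _ _ _
  rw [h4] at ht
  have h5 : (12 : ℝ) ^ t * (10 * (98 + (1 + 98 * t) * (108 + 10 * (1 + 98 * t)) + 1)) ≤ 13 ^ t := by
    have h6 : 960400 * ((t : ℝ) ^ 2 * (12 ^ t / 13 ^ t))
      + 125440 * ((t : ℝ) ^ 1 * (12 ^ t / 13 ^ t)) + 2170 * ((t : ℝ) ^ 0 * (12 ^ t / 13 ^ t))
      = (12 ^ t * (960400 * (t : ℝ) ^ 2 + 125440 * t + 2170)) / 13 ^ t := by
      field_simp
    rw [h6, div_lt_one h3] at ht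
    have h7 : (0 : ℝ) ≤ t := by positivity
    have h8 : (0 : ℝ) < 12 ^ t := by positivity
    have h9 : (12 : ℝ) ^ t * (10 * (98 + (1 + 98 * t) * (108 + 10 * (1 + 98 * t)) + 1))
      ≤ 12 ^ t * (960400 * (t : ℝ) ^ 2 + 125440 * t + 2170) := by
      apply mul_le_mul_of_nonneg_left _ h8.le
      nlinarith
    linarith
  exact_mod_cast h5

/-- For every `C` and all large `N` Maker can build in the `(50:49)` game a clique with at least
`(5/4) Q(N) + C` vertices. -/
lemma main (C : ℝ) : ∀ᶠ N : ℕ in atTop, ∃ q : ℕ, (5 / 4 : ℝ) * Q 50 49 N + C ≤ q ∧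
    Q 50 49 N + C ≤ q ∧ MakerCanBuild 50 49 N q := by
  have hc : c 50 49 = 99 / 50 := by unfold c; norm_num
  have hc0 : c₀ 50 49 = 50 := by unfold c₀; norm_num
  have hlc : 0 < Real.log (99 / 50) := Real.log_pos (by norm_num)
  have hl13 : 0 < Real.log 13 := Real.log_pos (by norm_num)
  have hkey : Real.log 13 < 4 * Real.log (99 / 50) := by
    have : (4 : ℝ) * Real.log (99 / 50) = Real.log ((99 / 50) ^ 4) := by
      rw [Real.log_pow]; norm_num
    rw [this]
    exact Real.log_lt_log (by norm_num) (by norm_num)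
  have hlc50 : 2 * Real.log (99 / 50) / Real.log 50 ≤ 1 := by
    rw [div_le_one (Real.log_pos (by norm_num))]
    have : (2 : ℝ) * Real.log (99 / 50) = Real.log ((99 / 50) ^ 2) := by
      rw [Real.log_pow]; norm_num
    rw [this]
    exact Real.log_le_log (by norm_num) (by norm_num)
  -- eventually
  have hlogN : Tendsto (fun N : ℕ => Real.log N) atTop atTop :=
    Real.tendsto_log_atTop.comp tendsto_natCast_atTop_atTop
  set δ : ℝ := 10 / Real.log 13 - (5 / 4) * (2 / Real.log (99 / 50)) with hδ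
  have hδ0 : 0 < δ := by
    rw [hδ, sub_pos, ← mul_div_assoc, div_lt_div_iff₀ hlc hl13]
    linarith
  obtain ⟨T, hT⟩ := eventually_atTop.mp poly_exp
  have he1 : ∀ᶠ N : ℕ in atTop, (10 + C) / δ ≤ Real.log N := hlogN.eventually_ge_atTop _
  have he2 : ∀ᶠ N : ℕ in atTop, 2 * Real.log (99 / 50) ≤ Real.log N := hlogN.eventually_ge_atTop _
  have he3 : ∀ᶠ N : ℕ in atTop, 13 ^ T ≤ N := eventually_ge_atTop _
  filter_upwards [he1, he2, he3, eventually_gt_atTop 1] with N h1 h2 h3 h4
  have hNR : (1 : ℝ) < N := by exact_mod_cast h4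
  have hN0 : (0 : ℝ) < N := by linarith
  have hlN : 0 < Real.log N := Real.log_pos hNR
  have hQ : Q 50 49 N ≤ 2 * (Real.log N / Real.log (99 / 50)) := by
    unfold Q
    rw [hc, hc0]
    have h5 : (2 : ℝ) ≤ Real.logb (99 / 50) N := by
      unfold Real.logb
      rw [le_div_iff₀ hlc]; exact h2
    have h6 : Real.logb (99 / 50) (Real.exp 1 * N / (2 * Real.logb (99 / 50) N))
        ≤ Real.logb (99 / 50) N := by
      apply Real.logb_le_logb_of_le (by norm_num) (by positivity)
      rw [div_le_iff₀ (by positivity)]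
      have he := Real.exp_one_lt_d9
      nlinarith
    have h7 : Real.logb (99 / 50) N = Real.log N / Real.log (99 / 50) := rfl
    rw [h7] at h6
    rw [h7]
    linarith
  set t := Nat.log 13 N with ht
  have htT : T ≤ t := by
    rw [ht]
    exact Nat.le_log_of_pow_le (by norm_num) h3
  have ht1 : 13 ^ t ≤ N := Nat.pow_log_le_self 13 (by omega)
  have ht2 : N < 13 ^ (t + 1) := Nat.lt_pow_succ_log_self (by norm_num) N
  have hlt : Real.log N ≤ (t + 1) * Real.log 13 := by
    have h5 : (N : ℝ) ≤ 13 ^ (t + 1) := by exact_mod_cast ht2.le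
    calc Real.log N ≤ Real.log (13 ^ (t + 1)) := Real.log_le_log hN0 h5
      _ = (t + 1) * Real.log 13 := by rw [Real.log_pow]; push_cast; ring
  have ht3 : Real.log N / Real.log 13 - 1 ≤ t := by
    rw [sub_le_iff_le_add, div_le_iff₀ hl13]; exact hlt
  have h10 : (5 / 4 : ℝ) * (2 * (Real.log N / Real.log (99 / 50))) + C ≤ ((10 * t : ℕ) : ℝ) := by
    push_cast
    have h11 : 10 + C ≤ δ * Real.log N := by
      rw [div_le_iff₀ hδ0] at h1; linarith
    have h12 : δ * Real.log N = 10 * (Real.log N / Real.log 13)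
        - (5 / 4) * (2 * (Real.log N / Real.log (99 / 50))) := by
      rw [hδ]; ring
    linarith
  have h13 : 0 ≤ Real.log N / Real.log (99 / 50) := by positivity
  refine ⟨10 * t, by linarith, by linarith, canBuild t N ((hT t htT).trans ht1)⟩

/-- **The conjecture fails.** In the `(50:49)` clique game on `K_N` Maker can build, for every
constant `C` and all sufficiently large `N`, a clique with at least `(5/4) Q(N) + C` vertices (and
also at least `Q(N) + C` vertices). In particular the conjectured formula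
`A(K_N; clique; m:b) = ⌊Q(N) + o(1)⌋` does not hold for every pair `m > b ≥ 1`. -/
theorem result :
    (∀ C : ℝ, ∀ᶠ N : ℕ in atTop, ∃ q : ℕ, (5 / 4 : ℝ) * Q 50 49 N + C ≤ q ∧
      Q 50 49 N + C ≤ q ∧ MakerCanBuild 50 49 N q) ∧
    ¬ Conjecture := by
  refine ⟨main, ?_⟩
  intro hcon
  obtain ⟨ε, hε, hev⟩ := hcon 50 49 (by norm_num) (by norm_num)
  have h1 : ∀ᶠ N : ℕ in atTop, ε N < 1 := hε.eventually_lt_const (by norm_num)
  obtain ⟨N, hN1, ⟨a, ha, haQ⟩, q, _, hq, hbuild⟩ := (h1.and (hev.and (main 2))).exists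
  have h2 : q ≤ a := ha.2 hbuild
  have h3 : (a : ℝ) ≤ Q 50 49 N + ε N := by
    have := Int.floor_le (Q 50 49 N + ε N)
    rw [← haQ] at this
    exact_mod_cast this
  have h4 : (q : ℝ) ≤ a := by exact_mod_cast h2
  linarith

end Pool.Agent.Results.MP_ba8873_co.BlockDisproof
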